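import Mathlib

/-!
# Pairs at bounded distance in a separated set of reals
-/

open scoped BigOperators

namespace Pool.Agent.H820R3.PC

/-- number of points of `A` at distance at most `d` to the left of `y` -/
noncomputable def cc (A : Finset ℝ) (d y : ℝ) : ℕ := (A.filter (fun x => x < y ∧ y - x ≤ d)).card

lemma few (A : Finset ℝ) (T d : ℝ) (hd : 0 < d) (hA : ∀ x ∈ A, 0 < x ∧ x ≤ T) (k : ℕ) :
    (A.filter (fun y => cc A d y < k)).card ≤ k * ⌈T / d⌉₊ := by
  classical
  have h := Finset.card_le_mul_card_image_of_maps_to (s := A.filter (fun y => cc A d y < k))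
    (t := Finset.Icc 1 ⌈T / d⌉₊) (f := fun y => ⌈y / d⌉₊) ?_ k ?_
  · simpa using h
  · intro y hy
    have hy1 := hA y (Finset.mem_filter.mp hy).1
    rw [Finset.mem_Icc]
    constructor
    · have : 0 < ⌈y / d⌉₊ := Nat.ceil_pos.mpr (div_pos hy1.1 hd)
      omega
    · exact Nat.ceil_mono (div_le_div_of_nonneg_right hy1.2 hd.le)
  · intro j hj
    set B := (A.filter (fun y => cc A d y < k)).filter (fun y => ⌈y / d⌉₊ = j) with hB
    by_contra hcon
    push Not at hcon
    have hne : B.Nonempty := Finset.card_pos.mp (by omega)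
    set y := B.max' hne with hy
    have hyB : y ∈ B := Finset.max'_mem _ _
    have hy1 := Finset.mem_filter.mp hyB
    have hy2 := Finset.mem_filter.mp hy1.1
    have hsub : B.erase y ⊆ A.filter (fun x => x < y ∧ y - x ≤ d) := by
      intro x hx
      have hxB := Finset.mem_of_mem_erase hx
      have hxne := Finset.ne_of_mem_erase hx
      have hx1 := Finset.mem_filter.mp hxB
      have hx2 := Finset.mem_filter.mp hx1.1
      have hle : x ≤ y := Finset.le_max' _ _ hxB
      have hlt : x < y := lt_of_le_of_ne hle hxne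
      refine Finset.mem_filter.mpr ⟨hx2.1, hlt, ?_⟩
      have hj1 : 1 ≤ j := (Finset.mem_Icc.mp hj).1
      have e1 : y / d ≤ j := by
        have := Nat.le_ceil (y / d)
        rw [hy1.2] at this
        exact this
      have e2 : (j : ℝ) < x / d + 1 := by
        have hx3 := (hA x hx2.1).1
        have := Nat.ceil_lt_add_one (div_pos hx3 hd).le
        rw [hx1.2] at this
        exact this
      rw [div_le_iff₀ hd] at e1
      have e3 : (j : ℝ) * d < x + d := by
        have := mul_lt_mul_of_pos_right e2 hd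
        rw [add_mul, div_mul_cancel₀ _ hd.ne', one_mul] at this
        exact this
      linarith
    have h1 := Finset.card_le_card hsub
    rw [Finset.card_erase_of_mem hyB] at h1
    have h2 : cc A d y < k := hy2.2
    unfold cc at h2
    omega

lemma near (A : Finset ℝ) (a d e y : ℝ) (he : 0 < e) (ha : 0 < a)
    (hsep : ∀ x ∈ A, ∀ z ∈ A, x < z → e < z - x) (hy : y ∈ A) :
    cc A d y + 1 ≤ (A.filter (fun x => a ≤ y - x ∧ y - x ≤ d)).card + ⌈a / e⌉₊ := by
  classical
  set q := ⌈a / e⌉₊ with hq
  have hq1 : 1 ≤ q := Nat.ceil_pos.mpr (div_pos ha he)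
  set C := A.filter (fun x => x < y ∧ y - x < a) with hC
  have hCcard : C.card ≤ q - 1 := by
    have h := Finset.card_le_card_of_injOn (s := C) (t := Finset.Icc 1 (q - 1))
      (fun x => ⌊(y - x) / e⌋₊) ?_ ?_
    · simpa using h
    · intro x hx
      have hx1 := Finset.mem_filter.mp (Finset.mem_coe.mp hx)
      have h1 := hsep x hx1.1 y hy hx1.2.1
      simp only [Finset.coe_Icc, Set.mem_Icc]
      constructor
      · rw [Nat.one_le_floor_iff, le_div_iff₀ he]; linarith
      · have h2 : (y - x) / e < q :=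
          lt_of_lt_of_le (div_lt_div_of_pos_right hx1.2.2 he) (Nat.le_ceil _)
        have h3 : ⌊(y - x) / e⌋₊ < q := (Nat.floor_lt (by
          apply div_nonneg _ he.le; linarith [hx1.2.1])).mpr h2
        omega
    · intro x hx x' hx' hxx
      by_contra hne
      have hx1 := Finset.mem_filter.mp (Finset.mem_coe.mp hx)
      have hx1' := Finset.mem_filter.mp (Finset.mem_coe.mp hx')
      simp only at hxx
      have key : ∀ u ∈ C, ∀ v ∈ C, u < v → ⌊(y - u) / e⌋₊ = ⌊(y - v) / e⌋₊ → False := by
        intro u hu v hv huv hf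
        have hu1 := Finset.mem_filter.mp hu
        have hv1 := Finset.mem_filter.mp hv
        have h1 := hsep u hu1.1 v hv1.1 huv
        have h2 : ((⌊(y - v) / e⌋₊ : ℕ) : ℝ) ≤ (y - v) / e :=
          Nat.floor_le (div_nonneg (by linarith [hv1.2.1]) he.le)
        have h3 : (y - u) / e < (⌊(y - u) / e⌋₊ : ℝ) + 1 := Nat.lt_floor_add_one _
        rw [hf] at h3
        have h4 : (y - u) / e < (y - v) / e + 1 := by linarith
        have h5 : (y - u) / e - (y - v) / e = (v - u) / e := by ring
        have h6 : (v - u) / e < 1 := by linarith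
        rw [div_lt_one he] at h6
        linarith
      rcases lt_or_gt_of_ne hne with h | h
      · exact key x (Finset.mem_coe.mp hx) x' (Finset.mem_coe.mp hx') h hxx
      · exact key x' (Finset.mem_coe.mp hx') x (Finset.mem_coe.mp hx) h hxx.symm
  have hsub : A.filter (fun x => x < y ∧ y - x ≤ d) ⊆
      A.filter (fun x => a ≤ y - x ∧ y - x ≤ d) ∪ C := by
    intro x hx
    have hx1 := Finset.mem_filter.mp hx
    rw [Finset.mem_union]
    rcases le_or_gt a (y - x) with h | h
    · exact Or.inl (Finset.mem_filter.mpr ⟨hx1.1, h, hx1.2.2⟩)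
    · exact Or.inr (Finset.mem_filter.mpr ⟨hx1.1, hx1.2.1, h⟩)
  have h1 := (Finset.card_le_card hsub).trans (Finset.card_union_le _ _)
  unfold cc
  omega

/-- the counting lemma -/
theorem comb (A : Finset ℝ) (T d a e : ℝ) (hT : 0 ≤ T) (hd : 0 < d) (he : 0 < e) (ha : 0 < a)
    (hA : ∀ x ∈ A, 0 < x ∧ x ≤ T) (hsep : ∀ x ∈ A, ∀ z ∈ A, x < z → e < z - x) (K : ℕ) :
    ∑ k ∈ Finset.Icc ⌈a / e⌉₊ K, ((A.card : ℝ) - k * (T / d + 1)) ≤
      ∑ y ∈ A, ((A.filter (fun x => a ≤ y - x ∧ y - x ≤ d)).card : ℝ) := by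
  classical
  set q := ⌈a / e⌉₊ with hq
  have hq1 : 1 ≤ q := Nat.ceil_pos.mpr (div_pos ha he)
  have h1 : ∀ k : ℕ, (A.card : ℝ) - k * (T / d + 1) ≤
      ((A.filter (fun y => k ≤ cc A d y)).card : ℝ) := by
    intro k
    have h2 := few A T d hd hA k
    have h3 : (A.filter (fun y => k ≤ cc A d y)).card + (A.filter (fun y => cc A d y < k)).card
        = A.card := by
      have := Finset.card_filter_add_card_filter_not (s := A) (p := fun y => k ≤ cc A d y)
      simpa only [not_le] using this
    have h4 : ((⌈T / d⌉₊ : ℕ) : ℝ) ≤ T / d + 1 := (Nat.ceil_lt_add_one (div_nonneg hT hd.le)).le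
    have h5 : ((A.filter (fun y => cc A d y < k)).card : ℝ) ≤ k * (T / d + 1) := by
      have : ((A.filter (fun y => cc A d y < k)).card : ℝ) ≤ (k : ℝ) * (⌈T / d⌉₊ : ℕ) := by
        exact_mod_cast h2
      exact this.trans (mul_le_mul_of_nonneg_left h4 (Nat.cast_nonneg _))
    have h6 : ((A.filter (fun y => k ≤ cc A d y)).card : ℝ) +
        ((A.filter (fun y => cc A d y < k)).card : ℝ) = A.card := by exact_mod_cast h3
    linarith
  refine (Finset.sum_le_sum fun k _ => h1 k).trans ?_
  have h7 : ∑ k ∈ Finset.Icc q K, (A.filter (fun y => k ≤ cc A d y)).card =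
      ∑ y ∈ A, ((Finset.Icc q K).filter (fun k => k ≤ cc A d y)).card := by
    simp_rw [Finset.card_filter]
    exact Finset.sum_comm
  have h8 : ∀ y ∈ A, ((Finset.Icc q K).filter (fun k => k ≤ cc A d y)).card ≤
      (A.filter (fun x => a ≤ y - x ∧ y - x ≤ d)).card := by
    intro y hy
    have h9 := near A a d e y he ha hsep hy
    have h10 : (Finset.Icc q K).filter (fun k => k ≤ cc A d y) ⊆ Finset.Icc q (cc A d y) := by
      intro k hk
      have := Finset.mem_filter.mp hk
      exact Finset.mem_Icc.mpr ⟨(Finset.mem_Icc.mp this.1).1, this.2⟩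
    have h11 := Finset.card_le_card h10
    rw [Nat.card_Icc] at h11
    omega
  have h12 : ∑ k ∈ Finset.Icc q K, (A.filter (fun y => k ≤ cc A d y)).card ≤
      ∑ y ∈ A, (A.filter (fun x => a ≤ y - x ∧ y - x ≤ d)).card := by
    rw [h7]; exact Finset.sum_le_sum h8
  exact_mod_cast h12

end Pool.Agent.H820R3.PC
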