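import Pool.Agent.H344R2.Scale
import Pool.Agent.H820R3.PC.Comb

/-!
# A positive density of separated critical zeros, with the main term `T log T / 2π`
-/

open Complex Filter Topology Set
open scoped BigOperators

namespace Pool.Agent.H820R3.PC

open H370 H344

/-- the main term of the zero counting function -/
noncomputable def MT (T : ℝ) : ℝ := T / (2 * Real.pi) * Real.log T

/-- the density of isolated zeros -/
noncomputable def pp (r : ℝ) : ℝ := 1 - (cMTinv - 1) / KK r ^ 2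

lemma MT_eq (T : ℝ) : MT T = T * Real.log T / (2 * Real.pi) := by unfold MT; ring

lemma MT_atTop : Tendsto MT atTop atTop := by
  have h1 : Tendsto (fun T : ℝ => T / (2 * Real.pi)) atTop atTop :=
    tendsto_id.atTop_div_const (by positivity)
  exact h1.atTop_mul_atTop₀ Real.tendsto_log_atTop

lemma dyadic_MT (P : ℝ → ℝ → ℕ)
    (hadd : ∀ a b c : ℝ, 1 ≤ a → a ≤ b → b ≤ c → P a c = P a b + P b c)
    (c c' T0 : ℝ) (hT0 : 10 ≤ T0) (hc : 0 ≤ c) (hcc : c' < c)
    (h : ∀ T : ℝ, T0 ≤ T → c * MT T ≤ (P T (2 * T) : ℝ)) :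
    ∃ X0 : ℝ, ∀ X : ℝ, X0 ≤ X → ∃ a : ℝ, 10 ≤ a ∧ a ≤ X ∧ c' * MT X ≤ (P a X : ℝ) := by
  have hpi := Real.pi_pos
  have key : ∀ J : ℕ, ∀ X : ℝ, T0 * 2 ^ J ≤ X →
      c * (X / (2 * Real.pi) * ((1 - 1 / 2 ^ J) * Real.log X - J)) ≤ (P (X / 2 ^ J) X : ℝ) := by
    intro J
    induction J with
    | zero =>
      intro X hX
      simp
    | succ J ih =>
      intro X hX
      have hp : (1 : ℝ) ≤ 2 ^ J := one_le_pow₀ (by norm_num)
      have hp0 : (0 : ℝ) < 2 ^ J := by positivity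
      have hXpos : 0 < X := by
        have : (0 : ℝ) < 2 ^ (J + 1) := by positivity
        nlinarith
      have hX1 : T0 * 2 ^ J ≤ X := by
        rw [pow_succ] at hX
        nlinarith
      have hY : T0 ≤ X / 2 ^ (J + 1) := by
        rw [le_div_iff₀ (by positivity)]; exact hX
      have e1 : 2 * (X / 2 ^ (J + 1)) = X / 2 ^ J := by
        rw [pow_succ]; field_simp
      have hle : X / 2 ^ J ≤ X := div_le_self hXpos.le hp
      have h2 := hadd (X / 2 ^ (J + 1)) (X / 2 ^ J) X (by linarith) (by linarith) hle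
      have h3 := h (X / 2 ^ (J + 1)) hY
      rw [e1] at h3
      have h4 := ih X hX1
      rw [h2]
      push_cast
      have h5 : MT (X / 2 ^ (J + 1)) ≥
          X / (2 * Real.pi) * (1 / 2 ^ (J + 1) * Real.log X - 1) := by
        unfold MT
        rw [Real.log_div hXpos.ne' (by positivity), Real.log_pow]
        have h6 : ((J + 1 : ℕ) : ℝ) * Real.log 2 ≤ 2 ^ (J + 1) := by
          have h7 : ((J + 1 : ℕ) : ℝ) ≤ 2 ^ (J + 1) := by
            exact_mod_cast (Nat.lt_two_pow_self (n := J + 1)).le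
          have h8 : Real.log 2 ≤ 1 := by
            have := Real.log_two_lt_d9; linarith
          have h9 : 0 ≤ Real.log 2 := Real.log_nonneg (by norm_num)
          have h10 : (0 : ℝ) ≤ ((J + 1 : ℕ) : ℝ) := Nat.cast_nonneg _
          nlinarith
        have e2 : X / 2 ^ (J + 1) / (2 * Real.pi) *
            (Real.log X - ((J + 1 : ℕ) : ℝ) * Real.log 2) =
            X / (2 * Real.pi) * (1 / 2 ^ (J + 1) * Real.log X -
              ((J + 1 : ℕ) : ℝ) * Real.log 2 / 2 ^ (J + 1)) := by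
          field_simp
        rw [e2]
        apply mul_le_mul_of_nonneg_left _ (by positivity)
        have h11 : ((J + 1 : ℕ) : ℝ) * Real.log 2 / 2 ^ (J + 1) ≤ 1 := by
          rw [div_le_one (by positivity)]; exact h6
        linarith
      have h12 : c * (X / (2 * Real.pi) * (1 / 2 ^ (J + 1) * Real.log X - 1)) ≤
          c * MT (X / 2 ^ (J + 1)) := mul_le_mul_of_nonneg_left h5 hc
      have e3 : c * (X / (2 * Real.pi) * ((1 - 1 / 2 ^ (J + 1)) * Real.log X - ((J : ℝ) + 1))) =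
          c * (X / (2 * Real.pi) * ((1 - 1 / 2 ^ J) * Real.log X - J)) +
          c * (X / (2 * Real.pi) * (1 / 2 ^ (J + 1) * Real.log X - 1)) := by
        rw [pow_succ]; field_simp; ring
      rw [e3]
      linarith
  obtain ⟨J, hJ⟩ : ∃ J : ℕ, c / 2 ^ J ≤ (c - c') / 2 := by
    have h1 : Tendsto (fun J : ℕ => c * (1 / 2 : ℝ) ^ J) atTop (𝓝 (c * 0)) :=
      (tendsto_pow_atTop_nhds_zero_of_lt_one (by norm_num) (by norm_num)).const_mul c
    rw [mul_zero] at h1
    have h2 := h1.eventually_lt_const (show (0 : ℝ) < (c - c') / 2 by linarith)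
    obtain ⟨J, hJ⟩ := h2.exists
    refine ⟨J, ?_⟩
    have : c / 2 ^ J = c * (1 / 2 : ℝ) ^ J := by rw [one_div, inv_pow]; rfl
    rw [this]; exact hJ.le
  obtain ⟨X1, hX1⟩ := (Real.tendsto_log_atTop.eventually_ge_atTop
    (2 * (c * J) / (c - c'))).exists_forall_of_atTop
  refine ⟨max (T0 * 2 ^ J) X1, fun X hX => ⟨X / 2 ^ J, ?_, ?_, ?_⟩⟩
  · have : T0 * 2 ^ J ≤ X := (le_max_left _ _).trans hX
    have h1 : T0 ≤ X / 2 ^ J := by rw [le_div_iff₀ (by positivity)]; exact this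
    linarith
  · have : T0 * 2 ^ J ≤ X := (le_max_left _ _).trans hX
    have hp : (1 : ℝ) ≤ 2 ^ J := one_le_pow₀ (by norm_num)
    exact div_le_self (by nlinarith) hp
  · have hXJ : T0 * 2 ^ J ≤ X := (le_max_left _ _).trans hX
    have h1 := key J X hXJ
    refine le_trans ?_ h1
    have h2 := hX1 X ((le_max_right _ _).trans hX)
    rw [div_le_iff₀ (by linarith)] at h2
    have hp : (1 : ℝ) ≤ 2 ^ J := one_le_pow₀ (by norm_num)
    have hXpos : 0 < X := by nlinarith
    have hL : 0 ≤ Real.log X := Real.log_nonneg (by nlinarith)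
    have h3 : c / 2 ^ J * Real.log X ≤ (c - c') / 2 * Real.log X :=
      mul_le_mul_of_nonneg_right hJ hL
    have h4 : c' * Real.log X ≤ c * ((1 - 1 / 2 ^ J) * Real.log X - J) := by
      have e : c * ((1 - 1 / 2 ^ J) * Real.log X - J) =
          c * Real.log X - c / 2 ^ J * Real.log X - c * J := by ring
      rw [e]
      linarith
    unfold MT
    calc c' * (X / (2 * Real.pi) * Real.log X) = X / (2 * Real.pi) * (c' * Real.log X) := by ring
      _ ≤ X / (2 * Real.pi) * (c * ((1 - 1 / 2 ^ J) * Real.log X - J)) :=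
        mul_le_mul_of_nonneg_left h4 (by positivity)
      _ = _ := by ring

lemma pp_pos {r : ℝ} (h0 : 0 ≤ r) (h1 : r ≤ 1 / 3) : 0 < pp r := by
  have hK1 := KK_third h0 h1
  have hK20 : 0 < KK r ^ 2 := by positivity
  have hKsq1 : 0.678 ≤ KK r ^ 2 := by
    have : (0.824 : ℝ) ^ 2 ≤ KK r ^ 2 := pow_le_pow_left₀ (by norm_num) hK1 2
    norm_num at this ⊢
    linarith
  have hc1 := cMTinv_le
  unfold pp
  rw [sub_pos, div_lt_one hK20]
  norm_num at hc1 hKsq1 ⊢
  linarith

/-- the density of isolated simple critical zeros -/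
theorem iso_density {F : ℂ → ℂ} (hF : GoodL F) {r : ℝ} (hr0 : 0 ≤ r) (hr : r ≤ 1 / 3) :
    ∃ κ : ℝ, 0 < κ ∧ ∃ X0 : ℝ, ∀ X : ℝ, X0 ≤ X → ∃ a : ℝ, 10 ≤ a ∧ a ≤ X ∧
      (pp r + κ) * MT X ≤ (PQ F (Qbox F r) a X : ℝ) := by
  obtain ⟨κ, hκ0, -, H⟩ := yhyp_triples
  set k : ℝ := min (1 / 100) (κ / 2) with hk
  have hk0 : 0 < k := by positivity
  have hk1 : k ≤ 1 / 100 := min_le_left _ _
  have hk2 : 2 * k ≤ κ := by
    have := min_le_right (1 / 100) (κ / 2)
    linarith
  obtain ⟨T0, hT0⟩ := iso_main hF hk0 hk1 hk2 H hr0 hr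
  obtain ⟨C, T1, hC, hT1, hasy⟩ := nn_asymp hF
  have hp0 := pp_pos hr0 hr
  have hK1 := KK_third hr0 hr
  have hK2 := KK_le_one r
  have hK20 : 0 < KK r ^ 2 := by positivity
  have hK21 : KK r ^ 2 ≤ 1 := by nlinarith
  have hA : pp r + k ≤ 1 - (cMTinv - 1 - k) / KK r ^ 2 := by
    unfold pp
    have : k ≤ k / KK r ^ 2 := by
      rw [le_div_iff₀ hK20]; nlinarith
    have e : (cMTinv - 1 - k) / KK r ^ 2 = (cMTinv - 1) / KK r ^ 2 - k / KK r ^ 2 := by ring
    rw [e]; linarith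
  have hpi := Real.pi_pos
  obtain ⟨T2, hT2⟩ := (Real.tendsto_log_atTop.eventually_ge_atTop
    (2 * Real.pi * (2 * (C * (pp r + k)) / k))).exists_forall_of_atTop
  refine ⟨k / 4, by positivity, ?_⟩
  refine dyadic_MT (PQ F (Qbox F r)) (fun a b c h1 h2 h3 => PQ_add hF _ h1 h2 h3)
    (pp r + k / 2) (pp r + k / 4) (max (max T0 T1) (max 10 T2))
    ((le_max_left _ _).trans (le_max_right _ _)) (by linarith) (by linarith) ?_
  intro T hT
  have hTT0 : T0 ≤ T := ((le_max_left _ _).trans (le_max_left _ _)).trans hT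
  have hTT1 : T1 ≤ T := ((le_max_right _ _).trans (le_max_left _ _)).trans hT
  have hT10 : 10 ≤ T := ((le_max_left _ _).trans (le_max_right _ _)).trans hT
  have hTT2 : T2 ≤ T := ((le_max_right _ _).trans (le_max_right _ _)).trans hT
  have h1 := hT0 T hTT0
  have h2 : (isoN F T (2 * Real.pi * r / Real.log T) (4 * Real.pi / 5 / Real.log T) : ℝ) ≤
      PQ F (Qbox F r) T (2 * T) := by exact_mod_cast iso_le_box hF hr0 hT10
  have h3 := (abs_le.mp (hasy T hTT1 T (2 * T) le_rfl (by linarith) (by linarith) le_rfl)).1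
  rw [← MT_eq] at h3
  have h4 := hT2 T hTT2
  have h5 : C * (pp r + k) * T ≤ k / 2 * MT T := by
    unfold MT
    have h6 : 2 * (C * (pp r + k)) / k ≤ Real.log T / (2 * Real.pi) := by
      rw [le_div_iff₀ (by positivity)]; linarith
    rw [div_le_iff₀ hk0] at h6
    have h7 : C * (pp r + k) ≤ k / 2 * (Real.log T / (2 * Real.pi)) := by linarith
    calc C * (pp r + k) * T ≤ (k / 2 * (Real.log T / (2 * Real.pi))) * T :=
          mul_le_mul_of_nonneg_right h7 (by linarith)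
      _ = _ := by ring
  have hNN : (0 : ℝ) ≤ NN F T (2 * T) := Nat.cast_nonneg _
  calc (pp r + k / 2) * MT T = (pp r + k) * MT T - k / 2 * MT T := by ring
    _ ≤ (pp r + k) * (MT T - C * T) := by
      have : (pp r + k) * (MT T - C * T) = (pp r + k) * MT T - C * (pp r + k) * T := by ring
      rw [this]; linarith
    _ ≤ (pp r + k) * (NN F T (2 * T) : ℝ) :=
      mul_le_mul_of_nonneg_left (by linarith) (by linarith)
    _ ≤ (1 - (cMTinv - 1 - k) / KK r ^ 2) * (NN F T (2 * T) : ℝ) :=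
      mul_le_mul_of_nonneg_right hA hNN
    _ ≤ _ := h1.trans h2

/-- the ordinates of the isolated zeros in `(a, T]` -/
theorem ordinates {F : ℂ → ℂ} (hF : GoodL F) {r : ℝ} (hr0 : 0 < r) (hr : r ≤ 1 / 3) {a T : ℝ}
    (ha : 10 ≤ a) :
    ∃ A : Finset ℝ, A.card = PQ F (Qbox F r) a T ∧ (∀ x ∈ A, 10 < x ∧ x ≤ T) ∧
      (∀ x ∈ A, (1 / 2 + x * I : ℂ) ∈ zset F 0 T ∧ mult F (1 / 2 + x * I : ℂ) = 1) ∧
      ∀ x ∈ A, ∀ z ∈ A, x < z → 2 * Real.pi * r / Real.log T < z - x := by
  classical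
  have hfin : {s : ℂ | s ∈ zset F a T ∧ Qbox F r s}.Finite :=
    (zset_finite hF a T (by linarith)).subset fun s hs => hs.1
  have hinj : Set.InjOn Complex.im {s : ℂ | s ∈ zset F a T ∧ Qbox F r s} := by
    intro s hs s' hs' h
    exact Complex.ext (by rw [hs.2.1, hs'.2.1]) h
  have hback : ∀ s : ℂ, s.re = 1 / 2 → (1 / 2 + (s.im : ℂ) * I : ℂ) = s := by
    intro s hs
    apply Complex.ext
    · simp [hs]
    · simp
  refine ⟨hfin.toFinset.image Complex.im, ?_, ?_, ?_, ?_⟩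
  · unfold PQ
    rw [Finset.card_image_of_injOn, Set.ncard_eq_toFinset_card _ hfin]
    intro s hs s' hs' h
    exact hinj (by simpa using hs) (by simpa using hs') h
  · intro x hx
    obtain ⟨s, hs, rfl⟩ := Finset.mem_image.mp hx
    have hs := hfin.mem_toFinset.mp hs
    exact ⟨ha.trans_lt hs.1.2.2.1, hs.1.2.2.2.1⟩
  · intro x hx
    obtain ⟨s, hs, rfl⟩ := Finset.mem_image.mp hx
    have hs := hfin.mem_toFinset.mp hs
    rw [hback s hs.2.1]
    exact ⟨⟨hs.1.1, hs.1.2.1, by linarith [hs.1.2.2.1], hs.1.2.2.2.1, hs.1.2.2.2.2⟩, hs.2.2.1⟩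
  · intro x hx z hz hxz
    obtain ⟨s, hs, rfl⟩ := Finset.mem_image.mp hx
    obtain ⟨s', hs', rfl⟩ := Finset.mem_image.mp hz
    have hs := hfin.mem_toFinset.mp hs
    have hs' := hfin.mem_toFinset.mp hs'
    have hpi := Real.pi_pos
    have h10 : 10 < s.im := ha.trans_lt hs.1.2.2.1
    have hlog : 0 < Real.log s.im := Real.log_pos (by linarith)
    have hlog2 : Real.log s.im ≤ Real.log T := Real.log_le_log (by linarith) hs.1.2.2.2.1
    by_contra hcon
    push Not at hcon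
    have hne : s' ≠ s := by
      rintro rfl
      exact lt_irrefl _ hxz
    have h1 := hs.2.2.2 s' hs'.1.2.2.2.2 hs'.1.1 hs'.1.2.1 hne ?_
    · rw [hs'.2.1, sub_self, abs_zero] at h1
      have : 0 < 4 * Real.pi / 5 / Real.log s.im := by positivity
      linarith
    · rw [abs_of_pos (by linarith)]
      exact hcon.trans (div_le_div_of_nonneg_left (by positivity) hlog hlog2)

end Pool.Agent.H820R3.PC
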